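import Pool.Agent.Q123.RegPoly
import Pool.Agent.Q123.VNum2

/-!
# Asymptotic v-numbers and regularities of powers of monomial ideals: an obstruction

Definitions used:
* `TorNe J i e`, `IsReg J r` (file `Pool.Agent.H677R3.RegKoszul`): the Koszul homology
  `H_i(x; J) = Tor_i(J, K)` is nonzero in internal degree `i + e`, and `r` is the greatest such `e`,
  i.e. `reg J = r`;
* `vNumber J` (file `Pool.Agent.Q123.VNum`): the least degree of a homogeneous `f` such that
  `(J : f)` is a prime ideal.
-/

set_option autoImplicit false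

namespace Pool.Agent.Results.MP_d985a5_al.Obstruction

open MvPolynomial Pool.Agent.Q123 Pool.Agent.H677R3.EdgeReg

/-- `I` is a monomial ideal -/
def IsMonomialIdeal {n : ℕ} {K : Type*} [Field K] (I : Ideal (MvPolynomial (Fin n) K)) : Prop :=
  ∃ A : Set (Fin n →₀ ℕ), I = Ideal.span ((fun s => monomial s (1 : K)) '' A)

/-- the quadruple `(a, b, c, d)` is realized over `K`: there is a proper monomial ideal `I` with
`v(I^k) = a k + b` and `reg I^k = c k + d` for all large `k` -/
def Realized (K : Type*) [Field K] (a b c d : ℤ) : Prop :=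
  ∃ (n : ℕ) (I : Ideal (MvPolynomial (Fin n) K)), IsMonomialIdeal I ∧ I ≠ ⊤ ∧
    ∃ N : ℕ, ∀ k : ℕ, N ≤ k → (vNumber (I ^ k) : ℤ) = a * k + b ∧
      ∃ r : ℕ, IsReg (I ^ k) r ∧ (r : ℤ) = c * k + d

section

variable {n : ℕ} {K : Type*} [Field K]

/-- if `v(I^k) = k - 1` for some `k ≥ 2` then the monomial ideal `I` is generated by variables -/
theorem eq_span_variables {A : Set (Fin n →₀ ℕ)}
    (hI : Ideal.span ((fun s => monomial s (1 : K)) '' A) ≠ ⊤) {k : ℕ} (hk : 2 ≤ k)
    (hv : vNumber (Ideal.span ((fun s => monomial s (1 : K)) '' A) ^ k) = k - 1) :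
    ∃ B : Set (Fin n →₀ ℕ), NExch B ∧ (∀ b ∈ B, b.degree = 1) ∧ B.Nonempty ∧
      Ideal.span ((fun s => monomial s (1 : K)) '' A) =
        Ideal.span ((fun s => monomial s (1 : K)) '' B) := by
  classical
  set I := Ideal.span ((fun s => monomial s (1 : K)) '' A) with hIdef
  -- the exponents in `A` are not zero
  have hA0 : ∀ u ∈ A, 1 ≤ u.degree := by
    intro u hu
    by_contra h
    have h0 : u = 0 := (Finsupp.degree_eq_zero_iff u).1 (by omega)
    subst h0
    apply hI
    rw [Ideal.eq_top_iff_one]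
    exact Ideal.subset_span ⟨0, hu, rfl⟩
  -- the set in the definition of the v-number is not empty
  have hne : {d | ∃ f : MvPolynomial (Fin n) K, f.IsHomogeneous d ∧
      ∃ p : Ideal (MvPolynomial (Fin n) K), p.IsPrime ∧ ∀ g, g ∈ p ↔ g * f ∈ I ^ k}.Nonempty := by
    by_contra h
    rw [Set.not_nonempty_iff_eq_empty] at h
    unfold vNumber at hv
    rw [h, Nat.sInf_empty] at hv
    omega
  have hmem := Nat.sInf_mem hne
  rw [show sInf _ = k - 1 from hv] at hmem
  obtain ⟨f, hf, p, hp, hpf⟩ := hmem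
  have hf0 : f ≠ 0 := by
    rintro rfl
    apply hp.ne_top
    rw [Ideal.eq_top_iff_one, hpf, mul_zero]
    exact Ideal.zero_mem _
  obtain ⟨v, hv'⟩ := support_nonempty.2 hf0
  have hle : I ^ k ≤ p := by
    intro g hg
    rw [hpf]
    exact Ideal.mul_mem_right _ _ hg
  have hIp : I ≤ p := hp.le_of_pow_le hle
  -- the variables in `p` belong to `I`
  have hvar : ∀ j, (X j : MvPolynomial (Fin n) K) ∈ p → Finsupp.single j 1 ∈ A := by
    intro j hj
    rw [hpf, hIdef, span_pow_eq] at hj
    obtain ⟨s, ⟨u, hu, rfl⟩, hsle⟩ := (mem_span_iff _ _).1 hj _ (support_X_mul' j f hv')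
    have hdeg := degree_of_mem_support hf hv'
    have h1 := Finsupp.degree_mono (show ∑ s, u s ≤ v + Finsupp.single j 1 from hsle)
    rw [map_add, hdeg, Finsupp.degree_single, map_sum] at h1
    have h2 : ∀ s, 1 ≤ (u s).degree := fun s => hA0 _ (hu s)
    have h3 : ∑ _s : Fin k, 1 ≤ ∑ s, (u s).degree := Finset.sum_le_sum fun s _ => h2 s
    have h4 : ∑ _s : Fin k, 1 = k := by simp
    -- all the factors are variables
    have h5 : ∀ s, (u s).degree = 1 := by
      intro s
      by_contra hs
      have h6 : ∑ _s : Fin k, 1 < ∑ s, (u s).degree :=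
        Finset.sum_lt_sum (fun s _ => h2 s) ⟨s, Finset.mem_univ _, by have := h2 s; omega⟩
      omega
    have h7 : ∑ s, u s = v + Finsupp.single j 1 := by
      have h8 : (v + Finsupp.single j 1 - ∑ s, u s) + ∑ s, u s = v + Finsupp.single j 1 :=
        tsub_add_cancel_of_le hsle
      have h9 := congrArg Finsupp.degree h8
      rw [map_add, map_add, hdeg, Finsupp.degree_single, map_sum] at h9
      have h10 : (v + Finsupp.single j 1 - ∑ s, u s).degree = 0 := by omega
      rw [(Finsupp.degree_eq_zero_iff _).1 h10, zero_add] at h8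
      exact h8
    have h11 : ∃ s, u s j ≠ 0 := by
      by_contra hcon
      push Not at hcon
      have := DFunLike.congr_fun h7 j
      rw [Finsupp.finsetSum_apply, Finset.sum_eq_zero (fun s _ => hcon s), Finsupp.add_apply,
        Finsupp.single_eq_same] at this
      omega
    obtain ⟨s, hs⟩ := h11
    have h12 : u s = Finsupp.single j 1 := by
      have h13 : Finsupp.single j 1 ≤ u s := by
        rw [Finsupp.single_le_iff]; omega
      have h14 : (u s - Finsupp.single j 1) + Finsupp.single j 1 = u s :=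
        tsub_add_cancel_of_le h13
      have h15 := congrArg Finsupp.degree h14
      rw [map_add, Finsupp.degree_single, h5 s] at h15
      have h16 : (u s - Finsupp.single j 1).degree = 0 := by omega
      rw [(Finsupp.degree_eq_zero_iff _).1 h16, zero_add] at h14
      exact h14.symm
    rw [← h12]
    exact hu s
  -- `A` is not empty
  have hAne : A.Nonempty := by
    by_contra h
    rw [Set.not_nonempty_iff_eq_empty] at h
    have hbot : I = ⊥ := by rw [hIdef, h]; simp
    have h0 : vNumber (I ^ k) ≤ 0 := by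
      apply Nat.sInf_le
      refine ⟨1, isHomogeneous_one _ _, ⊥, Ideal.isPrime_bot, fun g => ?_⟩
      rw [hbot, mul_one, ← Ideal.zero_eq_bot, zero_pow (by omega)]
    omega
  refine ⟨{u | ∃ j, u = Finsupp.single j 1 ∧ u ∈ A}, ?_, ?_, ?_, ?_⟩
  · rintro _ ⟨i, rfl, hi⟩ _ ⟨j, rfl, hj⟩ q hq
    have hqi : q = i := by
      by_contra h
      rw [Finsupp.single_eq_of_ne h] at hq
      omega
    subst hqi
    have hqj : q ≠ j := by
      rintro rfl
      omega
    refine ⟨j, ?_, j, ?_, ?_⟩
    · rw [Finsupp.single_eq_of_ne hqj.symm, Finsupp.single_eq_same]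
      omega
    · rw [tsub_self, zero_add]
    · rw [tsub_self, zero_add]
      exact hj
  · rintro _ ⟨j, rfl, -⟩
    rw [Finsupp.degree_single]
  · -- some variable belongs to `p`
    obtain ⟨u, hu⟩ := hAne
    have h1 : monomial u (1 : K) ∈ p := hIp (Ideal.subset_span ⟨u, hu, rfl⟩)
    rw [monomial_eq, C_1, one_mul, Finsupp.prod, hp.prod_mem_iff] at h1
    obtain ⟨j, -, hj⟩ := h1
    exact ⟨_, j, rfl, hvar j (hp.mem_of_pow_mem _ hj)⟩
  · apply le_antisymm
    · rw [hIdef, Ideal.span_le]
      rintro _ ⟨u, hu, rfl⟩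
      have h1 : monomial u (1 : K) ∈ p := hIp (Ideal.subset_span ⟨u, hu, rfl⟩)
      rw [monomial_eq, C_1, one_mul, Finsupp.prod, hp.prod_mem_iff] at h1
      obtain ⟨j, hju, hj⟩ := h1
      have hjA := hvar j (hp.mem_of_pow_mem _ hj)
      rw [SetLike.mem_coe, mem_span_iff, support_monomial_one]
      intro c hc
      rw [Finset.mem_singleton] at hc
      subst hc
      refine ⟨Finsupp.single j 1, ⟨j, rfl, hjA⟩, ?_⟩
      have : Finsupp.single j 1 ≤ c := by
        rw [Finsupp.single_le_iff]
        have := Finsupp.mem_support_iff.1 hju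
        omega
      exact this
    · apply Ideal.span_mono
      rintro _ ⟨u, ⟨j, -, hu⟩, rfl⟩
      exact ⟨u, hu, rfl⟩

end

/-- Over every field, a quadruple `(1, -1, c, d)` with `(c, d) ≠ (1, 0)` is not realized by any
proper monomial ideal.  For instance this holds for `(1, -1, 2, 0)`, which satisfies the
conditions `a ≥ 1`, `b ≥ -1`, `c ≥ 1`, `d ≥ 0` and `a k + b ≤ c k + d` for all `k ≥ 0`. -/
theorem result (K : Type*) [Field K] :
    (∀ c d : ℤ, ¬ (c = 1 ∧ d = 0) → ¬ Realized K 1 (-1) c d) ∧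
    (¬ Realized K 1 (-1) 2 0 ∧ ∀ k : ℕ, (1 : ℤ) * k + (-1) ≤ 2 * k + 0) := by
  have key : ∀ c d : ℤ, ¬ (c = 1 ∧ d = 0) → ¬ Realized K 1 (-1) c d := by
    rintro c d hcd ⟨n, I, ⟨A, rfl⟩, hItop, N, hN⟩
    have hreg : ∀ k : ℕ, N + 2 ≤ k → (k : ℤ) = c * k + d := by
      intro k hk
      obtain ⟨hv, r, hr, hrcd⟩ := hN k (by omega)
      have hv' : vNumber (Ideal.span ((fun s => monomial s (1 : K)) '' A) ^ k) = k - 1 := by
        omega
      obtain ⟨B, hB, hB1, hBne, he⟩ := eq_span_variables hItop (by omega) hv'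
      rw [he, span_pow_eq] at hr
      have hne : (nsum B k).Nonempty := by
        obtain ⟨b, hb⟩ := hBne
        exact ⟨_, fun _ => b, fun _ => hb, rfl⟩
      have h1 := isReg_of_nexch (K := K) (nsum_exch hB k) (nsum_degree hB1 k) hne
      have h2 : r = k * 1 := hr.unique h1
      rw [← hrcd, h2]
      simp
    apply hcd
    have h1 := hreg (N + 2) le_rfl
    have h2 := hreg (N + 3) (by omega)
    push_cast at h1 h2
    constructor <;> nlinarith
  exact ⟨key, key 2 0 (by omega), fun k => by omega⟩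

end Pool.Agent.Results.MP_d985a5_al.Obstruction
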